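import Pool.Agent.W_MP_d5b253_lc.Borel

/-!
MP_d5b253_lc: for every countable family of maps `φ k : ℕ → ℕ` there is one Ramsey co-null Borel
set `B` such that every Borel equivalence relation `E` on the infinite subsets of `ℕ`, whose
related sets `x E y` satisfy `y =* φ k [x]` for some `k`, is hyperfinite on `B`.
-/

set_option autoImplicit false

namespace Pool.Agent.Results.MP_d5b253_lc.PointMapRelations

theorem result :
  ∀ φ : ℕ → ℕ → ℕ,
    ∃ B : Set {x : ℕ → Bool // {n | x n = true}.Infinite},
      MeasurableSet B ∧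
      (∀ s : Finset ℕ, ∀ A : Set ℕ, A.Infinite → (∀ a ∈ A, ∀ m ∈ s, m < a) →
        ∃ A' : Set ℕ, A' ⊆ A ∧ A'.Infinite ∧
          ∀ x : {x : ℕ → Bool // {n | x n = true}.Infinite},
            ((↑s : Set ℕ) ⊆ {n | x.1 n = true} ∧ {n | x.1 n = true} ⊆ (↑s : Set ℕ) ∪ A') →
              x ∈ B) ∧
      ∀ E : {x : ℕ → Bool // {n | x n = true}.Infinite} →
            {x : ℕ → Bool // {n | x n = true}.Infinite} → Prop,
        Equivalence E →
        MeasurableSet {p : {x : ℕ → Bool // {n | x n = true}.Infinite} ×
                          {x : ℕ → Bool // {n | x n = true}.Infinite} | E p.1 p.2} →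
        (∀ x y : {x : ℕ → Bool // {n | x n = true}.Infinite}, E x y →
          ∃ k, (symmDiff (φ k '' {n | x.1 n = true}) {n | y.1 n = true}).Finite) →
        ∃ F : ℕ → {x : ℕ → Bool // {n | x n = true}.Infinite} →
                {x : ℕ → Bool // {n | x n = true}.Infinite} → Prop,
          (∀ n, Equivalence (F n)) ∧
          (∀ n, MeasurableSet {p : {x : ℕ → Bool // {n | x n = true}.Infinite} ×
                                   {x : ℕ → Bool // {n | x n = true}.Infinite} | F n p.1 p.2}) ∧
          (∀ n, ∀ x : {x : ℕ → Bool // {n | x n = true}.Infinite},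
              {y : {x : ℕ → Bool // {n | x n = true}.Infinite} | F n x y}.Finite) ∧
          (∀ n, ∀ x y : {x : ℕ → Bool // {n | x n = true}.Infinite},
              F n x y → F (n + 1) x y) ∧
          (∀ x ∈ B, ∀ y ∈ B, (E x y ↔ ∃ n, F n x y)) :=
  Pool.Agent.W_MP_d5b253_lc.main

end Pool.Agent.Results.MP_d5b253_lc.PointMapRelations
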